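import Pool.Agent.Helper83.CO.St
import Pool.Agent.Helper53.CX.M_Sum

/-! MODULE OMS of project CO (MP_140278_ag): the order of the logarithmic form along the
monomial valuation at a point of the projective line. -/

set_option autoImplicit false

open scoped BigOperators
open MvPolynomial

namespace Pool.Agent.Helper47.CO

open Pool.Agent.Helper53.CX Pool.Agent.Helper83.CO

/-- the coordinates at a finite point generate the field -/
theorem OMS_gen {k : ℕ} (p : ℂ) :
    IntermediateField.adjoin ℂ (Set.range (ys (some p) : Fin (k + 1) → Kn (k + 1))) = ⊤ := by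
  set E := IntermediateField.adjoin ℂ (Set.range (ys (some p) : Fin (k + 1) → Kn (k + 1))) with hE
  have hx : ∀ j, (x j : Kn (k + 1)) ∈ E := by
    intro j
    refine Fin.cases ?_ ?_ j
    · have h0 : (ys (some p) 0 : Kn (k + 1)) ∈ E := IntermediateField.subset_adjoin ℂ _ ⟨0, rfl⟩
      have h1 : (x 0 : Kn (k + 1)) = ys (some p) 0 + algebraMap ℂ (Kn (k + 1)) p := by
        simp [ys]
      rw [h1]
      exact E.add_mem h0 (E.algebraMap_mem p)
    · intro j
      have h0 : (ys (some p) j.succ : Kn (k + 1)) ∈ E :=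
        IntermediateField.subset_adjoin ℂ _ ⟨j.succ, rfl⟩
      simpa [ys] using h0
  have hP : ∀ q : Pn (k + 1), algebraMap (Pn (k + 1)) (Kn (k + 1)) q ∈ E := by
    intro q
    induction q using MvPolynomial.induction_on with
    | C c =>
      have h : algebraMap (Pn (k + 1)) (Kn (k + 1)) (C c) = algebraMap ℂ (Kn (k + 1)) c := by
        rw [IsScalarTower.algebraMap_apply ℂ (Pn (k + 1)) (Kn (k + 1))]
        rfl
      rw [h]
      exact E.algebraMap_mem c
    | add p q hp hq =>
      rw [map_add]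
      exact E.add_mem hp hq
    | mul_X p i hp =>
      rw [map_mul]
      exact E.mul_mem hp (hx i)
  rw [eq_top_iff]
  intro f _
  obtain ⟨a, b, hb, rfl⟩ := IsFractionRing.div_surjective (A := Pn (k + 1)) f
  exact E.div_mem (hP a) (hP b)

theorem OMS_aeval {n : ℕ} (τ : Kn n ≃ₐ[ℂ] Kn n) (y : Fin n → Kn n) (hτ : ∀ j, τ (x j) = y j)
    (q : Pn n) : τ (algebraMap (Pn n) (Kn n) q) = aeval y q := by
  have h : (τ : Kn n →ₐ[ℂ] Kn n).comp (IsScalarTower.toAlgHom ℂ (Pn n) (Kn n)) = aeval y := by
    apply MvPolynomial.algHom_ext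
    intro i
    simp [← hτ i, x]
  exact congrArg (fun φ => φ q) h

theorem OMS_monO {n : ℕ} (a : Fin n → ℤ) (q : Pn n) (hq : q ≠ 0) (z : ℤ)
    (h1 : ∀ m ∈ q.support, z ≤ wt a m) (h2 : ∃ m ∈ q.support, z = wt a m) : z = monO a q := by
  unfold monO
  have hne : q.support.Nonempty := MvPolynomial.support_nonempty.2 hq
  rw [dif_pos hne]
  apply le_antisymm
  · exact Finset.le_inf' _ _ h1
  · obtain ⟨m, hm, rfl⟩ := h2
    exact Finset.inf'_le _ hm

theorem OMS_mon (hExt : StExt) (hMon : StMon) {n : ℕ} (w : DivVal (Kn n)) (a : Fin n → ℤ)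
    (h : ∀ q : Pn n, q ≠ 0 → w.ord (algebraMap (Pn n) (Kn n) q) = monO a q) :
    w.ord = monOrd a := by
  obtain ⟨h0, hmul, -, hal⟩ := hExt n (monO a) (hMon n a).1 (hMon n a).2
  funext f
  by_cases hf : f = 0
  · rw [hf, w.ord_zero]
    exact h0.symm
  · obtain ⟨p, q, hq, rfl⟩ := IsFractionRing.div_surjective (A := Pn n) f
    have hq0 : q ≠ 0 := nonZeroDivisors.ne_zero hq
    have hp0 : p ≠ 0 := by
      rintro rfl
      exact hf (by simp)
    have hq' := Sum_alg_ne q hq0
    have h1 : algebraMap (Pn n) (Kn n) p / algebraMap (Pn n) (Kn n) q *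
        algebraMap (Pn n) (Kn n) q = algebraMap (Pn n) (Kn n) p := div_mul_cancel₀ _ hq'
    have h2 := w.ord_mul _ _ hf hq'
    have h3 := hmul _ _ hf hq'
    rw [h1] at h2 h3
    rw [h p hp0, h q hq0] at h2
    rw [hal p hp0, hal q hq0] at h3
    unfold monOrd
    omega

theorem OMS_jac {k : ℕ} (p : ℂ) :
    jac (ys (some p) : Fin (k + 1) → Kn (k + 1)) = ∏ j, x j := by
  unfold jac
  have h0 : (ys (some p) : Fin (k + 1) → Kn (k + 1)) 0 =
      x 0 + algebraMap ℂ (Kn (k + 1)) (-p) := by
    rw [map_neg, ← sub_eq_add_neg]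
    rfl
  have hs : ∀ i : Fin k, (ys (some p) : Fin (k + 1) → Kn (k + 1)) i.succ = x i.succ :=
    fun i => rfl
  have ht : ∀ i j : Fin (k + 1), theta j ((ys (some p) : Fin (k + 1) → Kn (k + 1)) i) =
      if i = j then x i else 0 := by
    intro i j
    refine Fin.cases ?_ ?_ i
    · rw [h0, theta_add, theta_algebraMap, add_zero, theta_x]
    · intro i
      rw [hs, theta_x]
  have h : (Matrix.of fun i j => theta j ((ys (some p) : Fin (k + 1) → Kn (k + 1)) i)) =
      Matrix.diagonal (fun j => (x j : Kn (k + 1))) := by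
    ext i j
    rw [Matrix.of_apply, Matrix.diagonal_apply, ht]
  rw [h, Matrix.det_diagonal]

theorem hOMS (hUNI : StUNI) (hEX : StEX) (hTOR : StTOR) (hExt : StExt) (hMon : StMon)
    (hTorOm : StTorOm) (hTau : StTau) (hPull : StPull) : StOMS := by
  intro k s a u v hu ha hv
  obtain ⟨hU1, hU2, hU3, -, hU5, -, -, hU8⟩ := hUNI k
  by_cases hs : s = none ∨ s = some 0
  · rw [if_pos hs]
    rcases hs with rfl | rfl
    · have h := (hTOR k v).2.2.2 a u hu ha hv
      refine hTorOm (k + 1) _ (Function.update u 0 (- u 0)) ?_ v h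
      rw [← hu, Fin.sum_univ_succ, Fin.sum_univ_succ]
      simp
    · exact hTorOm (k + 1) a u hu v ((hTOR k v).2.2.1 a u hu ha hv)
  · rw [if_neg hs]
    cases s with
    | none => exact absurd (Or.inl rfl) hs
    | some p =>
      have hp : p ≠ 0 := by
        rintro rfl
        exact hs (Or.inr rfl)
      obtain ⟨τ, hτ⟩ := hTau (k + 1) (ys (some p)) (OMS_gen p)
      obtain ⟨v1, hv1, hv1'⟩ := hEX k (some p) a u ha hu
      have hvv : v1 = v := hU1 _ _ _ _ hv1' hv
      rw [hvv] at hv1
      have hmon : (pull τ v).ord = monOrd a := by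
        apply OMS_mon hExt hMon
        intro q hq
        have e1 : (pull τ v).ord (algebraMap (Pn (k + 1)) (Kn (k + 1)) q) =
            v.ord (aeval (ys (some p)) q) := by
          change v.ord (τ _) = _
          rw [OMS_aeval τ _ hτ]
        rw [e1]
        exact OMS_monO a q hq _ (hv1 q hq).1 (hv1 q hq).2
      have hom := hTorOm (k + 1) a u hu _ hmon
      have hpl := (hPull (k + 1) v τ).2
      have hfun : (fun j => τ (x j)) = (ys (some p) : Fin (k + 1) → Kn (k + 1)) := funext hτ
      rw [hom, hfun, OMS_jac, Sum_ord_prod v _ _ (fun j _ => Sum_x_ne j),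
        Fin.sum_univ_succ, Fin.sum_univ_succ (f := fun j => v.ord (τ (x j)))] at hpl
      have e0 : v.ord (τ (x 0)) = a 0 := by
        rw [hτ 0]
        have h := hU2 (some p) a v p hv
        rw [(hU5 p).2.1, mul_one] at h
        exact h
      have e1 : v.ord (x 0) = 0 := by
        rw [(hU3 _ _ _ hv).1, hU8 p hp, mul_zero]
      have e2 : ∀ j : Fin k, v.ord (τ (x j.succ)) = v.ord (x j.succ) := fun j => by
        rw [hτ j.succ]
        rfl
      rw [e0, e1, Finset.sum_congr rfl (fun j _ => e2 j)] at hpl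
      omega

end Pool.Agent.Helper47.CO
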